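import Pool.Agent.TH447.DG.Asym

set_option autoImplicit false

/-!
The triangle-free case of the question, in a stronger form: for every `δ > 0` there is `c > 0` such
that a triangle-free `d`-degenerate graph with chromatic number above `δ * d` has a vertex of degree
above `exp (c * d)`.
-/

namespace Pool.Agent.Results.MP_4146e4_co.TriangleFreeMaxDegree

theorem result :
    ∀ δ : ℝ, 0 < δ → ∃ c : ℝ, 0 < c ∧ ∃ d₀ : ℕ, ∀ d : ℕ, d₀ ≤ d →
      ∀ (V : Type) [Fintype V] (G : SimpleGraph V),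
        G.CliqueFree 3 →
        (∀ s : Set V, s.Nonempty → ∃ v ∈ s, (G.neighborSet v ∩ s).ncard ≤ d) →
        (∀ n : ℕ, G.Colorable n → δ * (d : ℝ) < (n : ℝ)) →
        ∃ v : V, Real.exp (c * (d : ℝ)) < ((G.neighborSet v).ncard : ℝ) := by
  intro δ hδ
  obtain ⟨c, hc, d₀, h⟩ := Pool.Agent.TH447.DG.asym_linear δ hδ
  refine ⟨c, hc, d₀, fun d hd V _ G htri hG hn => ?_⟩
  by_contra hcon
  push Not at hcon
  obtain ⟨n, hn1, hn2⟩ := h d hd V G htri (fun S hS => hG (S : Set V) hS) hcon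
  exact absurd hn2 (not_le.mpr (hn n hn1))

end Pool.Agent.Results.MP_4146e4_co.TriangleFreeMaxDegree
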